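import Pool.Agent.W394.BQN.Stm2

/-!
# Project BQN: prime ideals and local rings after inverting elements
-/

set_option autoImplicit false

namespace Pool.Agent.W395.BQN

open Pool.Agent.W394.BQN

/-- the local ring at a prime ideal of `B` is the local ring at the contraction -/
theorem part1 (A B : Type) [CommRing A] [CommRing B] (ψ : A →+* B) (M : Submonoid A)
    (h1 : ∀ a, ψ a = 0 → ∃ m ∈ M, m * a = 0) (h2 : ∀ b, ∃ m ∈ M, ∃ a, ψ m * b = ψ a)
    (q' : Ideal B) [q'.IsPrime] (hq : ∀ m ∈ M, ψ m ∉ q') :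
    ∃ (q : Ideal A) (_ : q.IsPrime),
      q = q'.comap ψ ∧ Nonempty (Localization.AtPrime q' ≃+* Localization.AtPrime q) := by
  letI : Algebra A B := ψ.toAlgebra
  have hal : ∀ a : A, algebraMap A (Localization.AtPrime q') a =
      algebraMap B (Localization.AtPrime q') (ψ a) := fun a =>
    IsScalarTower.algebraMap_apply A B (Localization.AtPrime q') a
  have hp : (q'.comap ψ).IsPrime := Ideal.comap_isPrime ψ q'
  have hloc : IsLocalization (q'.comap ψ).primeCompl (Localization.AtPrime q') := by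
    rw [isLocalization_iff]
    refine ⟨?_, ?_, ?_⟩
    · rintro ⟨y, hy⟩
      rw [hal]
      exact IsLocalization.map_units (Localization.AtPrime q')
        (⟨ψ y, fun h => hy h⟩ : q'.primeCompl)
    · intro z
      obtain ⟨⟨b, s⟩, hz⟩ := IsLocalization.surj (M := q'.primeCompl) z
      obtain ⟨m, hm, a, ha⟩ := h2 b
      obtain ⟨m', hm', s', hs'⟩ := h2 s.1
      have hs0 : ψ s' ∉ q' := by
        rw [← hs']
        intro h
        rcases (inferInstance : q'.IsPrime).mem_or_mem h with h | h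
        · exact hq m' hm' h
        · exact s.2 h
      have hms : m * s' ∉ q'.comap ψ := by
        intro h
        rw [Ideal.mem_comap, map_mul] at h
        rcases (inferInstance : q'.IsPrime).mem_or_mem h with h | h
        · exact hq m hm h
        · exact hs0 h
      refine ⟨(a * m', ⟨m * s', hms⟩), ?_⟩
      simp only at hz ⊢
      rw [hal, hal, map_mul ψ, map_mul ψ, ← ha, ← hs', map_mul, map_mul, map_mul, map_mul]
      rw [← hz]
      ring
    · intro x y hxy
      rw [hal, hal] at hxy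
      obtain ⟨s, hs⟩ := (IsLocalization.eq_iff_exists q'.primeCompl _).1 hxy
      obtain ⟨m', hm', s', hs'⟩ := h2 s.1
      have hs0 : ψ s' ∉ q' := by
        rw [← hs']
        intro h
        rcases (inferInstance : q'.IsPrime).mem_or_mem h with h | h
        · exact hq m' hm' h
        · exact s.2 h
      have h0 : ψ (s' * x - s' * y) = 0 := by
        rw [map_sub, map_mul, map_mul, ← hs', mul_assoc, mul_assoc, hs, sub_self]
      obtain ⟨m, hm, hm0⟩ := h1 _ h0
      have hms : m * s' ∉ q'.comap ψ := by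
        intro h
        rw [Ideal.mem_comap, map_mul] at h
        rcases (inferInstance : q'.IsPrime).mem_or_mem h with h | h
        · exact hq m hm h
        · exact hs0 h
      refine ⟨⟨m * s', hms⟩, ?_⟩
      simp only
      rw [mul_sub] at hm0
      rw [mul_assoc, mul_assoc]
      exact sub_eq_zero.1 hm0
  exact ⟨q'.comap ψ, hp, rfl,
    ⟨(IsLocalization.algEquiv (q'.comap ψ).primeCompl (Localization.AtPrime q')
      (Localization.AtPrime (q'.comap ψ))).toRingEquiv⟩⟩

theorem t_GL : S_GL := by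
  intro A B _ _ ψ M h1 h2
  refine ⟨fun q' _ hq => part1 A B ψ M h1 h2 q' hq, ?_⟩
  intro q hqp hq
  have hcanc : ∀ m ∈ M, ∀ x, m * x ∈ q → x ∈ q := by
    intro m hm x hx
    rcases hqp.mem_or_mem hx with h | h
    · exact absurd h (hq m hm)
    · exact h
  let q' : Ideal B :=
    { carrier := {b | ∃ m ∈ M, ∃ a ∈ q, ψ m * b = ψ a}
      zero_mem' := ⟨1, M.one_mem, 0, q.zero_mem, by simp⟩
      add_mem' := by
        rintro b b' ⟨m, hm, a, ha, h⟩ ⟨m', hm', a', ha', h'⟩
        refine ⟨m * m', M.mul_mem hm hm', m' * a + m * a',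
          q.add_mem (q.mul_mem_left _ ha) (q.mul_mem_left _ ha'), ?_⟩
        rw [map_add, map_mul, map_mul, map_mul, ← h, ← h']
        ring
      smul_mem' := by
        rintro c b ⟨m, hm, a, ha, h⟩
        obtain ⟨mc, hmc, ac, hac⟩ := h2 c
        refine ⟨mc * m, M.mul_mem hmc hm, ac * a, q.mul_mem_left _ ha, ?_⟩
        rw [map_mul, map_mul, ← h, ← hac, smul_eq_mul]
        ring }
  have hmem : ∀ b, b ∈ q' ↔ ∃ m ∈ M, ∃ a ∈ q, ψ m * b = ψ a := fun b => Iff.rfl
  have hcomap : ∀ x, ψ x ∈ q' ↔ x ∈ q := by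
    intro x
    rw [hmem]
    constructor
    · rintro ⟨m, hm, a, ha, h⟩
      have h0 : ψ (m * x - a) = 0 := by rw [map_sub, map_mul, h, sub_self]
      obtain ⟨m', hm', h'⟩ := h1 _ h0
      rw [mul_sub, sub_eq_zero] at h'
      refine hcanc m hm x (hcanc m' hm' _ ?_)
      rw [h']
      exact q.mul_mem_left _ ha
    · intro hx
      exact ⟨1, M.one_mem, x, hx, by simp⟩
  have hq'p : q'.IsPrime := by
    refine ⟨?_, ?_⟩
    · intro h
      have h3 : ψ 1 ∈ q' := by rw [h]; trivial
      exact hqp.ne_top ((Ideal.eq_top_iff_one q).2 ((hcomap 1).1 h3))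
    · intro b c hbc
      obtain ⟨m, hm, a, ha, h⟩ := (hmem _).1 hbc
      obtain ⟨mb, hmb, ab, hab⟩ := h2 b
      obtain ⟨mc, hmc, ac, hac⟩ := h2 c
      have h0 : ψ (m * (ab * ac) - mb * mc * a) = 0 := by
        rw [map_sub, map_mul, map_mul, map_mul, map_mul, ← hab, ← hac, ← h]
        ring
      obtain ⟨m', hm', h'⟩ := h1 _ h0
      rw [mul_sub, sub_eq_zero] at h'
      have h4 : ab * ac ∈ q := by
        refine hcanc m hm _ (hcanc m' hm' _ ?_)
        rw [h']
        exact q.mul_mem_left _ (q.mul_mem_left _ ha)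
      rcases hqp.mem_or_mem h4 with h5 | h5
      · exact Or.inl ((hmem _).2 ⟨mb, hmb, ab, h5, hab⟩)
      · exact Or.inr ((hmem _).2 ⟨mc, hmc, ac, h5, hac⟩)
  have hqc : q = q'.comap ψ := by
    ext x
    rw [Ideal.mem_comap]
    exact (hcomap x).symm
  obtain ⟨q₂, hq₂, e, ⟨φ⟩⟩ := part1 A B ψ M h1 h2 q' (fun m hm h => hq m hm ((hcomap m).1 h))
  have e2 : q₂ = q := e.trans hqc.symm
  subst e2
  exact ⟨q', hq'p, hqc, ⟨φ.symm⟩⟩

end Pool.Agent.W395.BQN
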